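import Pool.Agent.SR2.T.Defs
import Pool.Agent.SDA.RDefs

/-!
# SR2 T CvG: the compact definitions and the definitions of the proofs (geometry)
-/

set_option autoImplicit false

open Topology Filter Metric MvPolynomial

noncomputable section

namespace Pool.Agent.SR2.T

open Pool.Agent.H17 (PN VanishesAt ZariskiClosedIn HolomorphicInto puncturedDisc)
open Pool.Agent.H17LG.Variety (FunField IsLogGeneralType)
open Pool.Agent.H13.SM (conTan)
open Pool.Agent.H7.Bir (vals rmap)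
open Pool.Agent.H62.SA (locVar)

variable {N M s : ℕ}

/-! ## smoothness -/

theorem isSmooth_of {P : Ideal (MvPolynomial (Fin (N + 1)) ℂ)} {n : ℕ} (h : Smooth P n) : Pool.Agent.AD.NC.IsSmooth P n := by
  intro x hx hP
  by_contra hcon
  push Not at hcon
  have h1 : n + 2 ≤ Module.finrank ℂ (conTan P x) := hcon
  obtain ⟨v, hv⟩ := exists_linearIndependent_of_le_finrank h1
  have h2 : LinearIndependent ℂ fun i => ((v i : conTan P x) : Fin (N + 1) → ℂ) :=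
    hv.map' (conTan P x).subtype (Submodule.ker_subtype _)
  obtain ⟨i, Q, hQ, hne⟩ := h x hx hP _ h2
  exact hne ((v i).2 Q hQ)

/-! ## log general type -/

theorem isOfLGT_of {P : Ideal (MvPolynomial (Fin (N + 1)) ℂ)} [P.IsPrime] {H : MvPolynomial (Fin (N + 1)) ℂ}
    (h : LogGT P (fun _ : Fin 1 => H) 2) : Pool.Agent.AD.NC.IsOfLogGeneralType P (fun _ : Fin 1 => H) 2 := by
  have h1 : (fun _ : Fin 1 => ∏ i : Fin 1, (fun _ : Fin 1 => H) i) = fun _ : Fin 1 => H := by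
    funext _
    simp
  unfold Pool.Agent.AD.NC.IsOfLogGeneralType
  rw [h1]
  exact h

/-! ## the conclusion -/

theorem ggl_of {P : Ideal (MvPolynomial (Fin (N + 1)) ℂ)} [P.IsPrime] {G : Fin s → MvPolynomial (Fin (N + 1)) ℂ} {Ξ : Set (PN N)}
    (h : Pool.Agent.H7.Bir.GGLOpen P G Ξ) : GGL P G Ξ where
  closed := h.closed
  proper := h.proper
  logGeneralType := fun n hn hd => h.logGeneralType n hn hd
  picard := h.picard
  brody := h.brody
  strongly := fun Q _ hQ hPQ hne n hn hd => h.strongly Q hQ hPQ hne n hn hd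

theorem vals_ne {γ : Fin (N + 1) → MvPolynomial (Fin (M + 1)) ℂ} {y : PN M} :
    vals γ y.rep ≠ 0 ↔ ∃ i, ¬ VanishesAt (γ i) y := by
  constructor
  · intro h
    by_contra hcon
    push Not at hcon
    exact h (funext hcon)
  · rintro ⟨i, hi⟩ h
    exact hi (congrFun h i)

theorem regular_of {S : Set (PN M)} {p : PN M → PN N} (h : RegularOn S p) : ∀ y ∈ S, ∃ (D : ℕ) (γ : Fin (N + 1) → MvPolynomial (Fin (M + 1)) ℂ),
    (∀ i, (γ i).IsHomogeneous D) ∧ vals γ y.rep ≠ 0 ∧ ∀ y' ∈ S, vals γ y'.rep ≠ 0 → p y' = rmap γ y' := by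
  intro y hy
  obtain ⟨D, γ, h1, h2, h3⟩ := h y hy
  refine ⟨D, γ, h1, vals_ne.2 h2, fun y' hy' hne => ?_⟩
  obtain ⟨h4, h5⟩ := h3 y' hy' (vals_ne.1 hne)
  rw [h5, Pool.Agent.H7.Bir.rmap, dif_pos hne]
  rfl

theorem isDominantMap_of {s' : ℕ} {P : Ideal (MvPolynomial (Fin (N + 1)) ℂ)} {P' : Ideal (MvPolynomial (Fin (M + 1)) ℂ)}
    {G : Fin s → MvPolynomial (Fin (N + 1)) ℂ} {G' : Fin s' → MvPolynomial (Fin (M + 1)) ℂ} {p : PN M → PN N} (h : IsDominantMap P P' G G' p) :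
    Pool.Agent.H7.Qup.IsDominantMap P P' G G' p where
  maps := h.maps
  regular := regular_of h.regular
  dense := h.dense

theorem isEtaleOver_of {s' : ℕ} {P : Ideal (MvPolynomial (Fin (N + 1)) ℂ)} {P' : Ideal (MvPolynomial (Fin (M + 1)) ℂ)}
    {G : Fin s → MvPolynomial (Fin (N + 1)) ℂ} {G' : Fin s' → MvPolynomial (Fin (M + 1)) ℂ} {p : PN M → PN N} (h : IsEtale P P' G G' p) :
    Pool.Agent.H62.Qe.IsEtaleOver P P' G G' p where
  reg := ⟨h.maps, h.surj, regular_of h.regular⟩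
  inv := h.inv
  locInj := by
    intro y hy hm
    filter_upwards [h.locInj y _ ⟨hy, rfl⟩ hm] with q hq h1 h2 h3 h4 h5
    exact hq _ h3 _ h4 ⟨h1, rfl⟩ ⟨h2, rfl⟩ h5
  locSec := by
    intro y hy hm
    obtain ⟨x, τ, ⟨hx, h1⟩, h2, h3, h4⟩ := h.locSec y _ ⟨hy, rfl⟩ hm
    refine ⟨x, hx, τ, h1, h2, h3, ?_⟩
    filter_upwards [h4] with x' h5 h6 h7
    obtain ⟨c, hc, ⟨h8, h9⟩, h10⟩ := h5 _ h7 ⟨h6, rfl⟩
    rw [h9] at hc h10
    exact ⟨h8, hc, h10⟩

theorem hyperbolic_of {P : Ideal (MvPolynomial (Fin (N + 1)) ℂ)} [P.IsPrime] {G : Fin s → MvPolynomial (Fin (N + 1)) ℂ}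
    (h : Pool.Agent.SDA.IsHyperbolicOpen P G) : Hyperbolic P G where
  four := by
    obtain ⟨Ξ, hΞ⟩ := h.four
    exact ⟨Ξ, ggl_of hΞ⟩
  dominating := by
    intro L t R _ F p hR hp
    obtain ⟨Ξ, hΞ⟩ := h.dominating L t R F p hR.homog hR.forms hR.dim (isDominantMap_of hp)
    exact ⟨Ξ, ggl_of hΞ⟩
  virtual := by
    intro L L' t t' R _ R' _ F F' q p hR hR' hp hq hgt
    obtain ⟨Ξ, hΞ⟩ := h.virtual L' L t t' R' R F F' q p hR'.homog hR.homog hR.forms hR'.forms hR'.dim hR.dim (isDominantMap_of hp)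
      (isEtaleOver_of hq) hgt
    exact ⟨Ξ, ggl_of hΞ⟩
  kobayashi := by
    obtain ⟨Q, D, h1, h2, m, C, h3⟩ := h.kobayashi
    exact ⟨Q, D, h1, h2, m, C, h3⟩

end Pool.Agent.SR2.T
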