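import Pool.Agent.H17LG.Variety
import Pool.Agent.H17.EntireCurves

/-!
# SR2 T Defs: compact definitions for the texts on logarithmic symmetric differentials

`P` is the ideal of a closed surface `X ⊆ ℙ^N`, `H` a form (or finitely many forms), `U` the complement of `{H = 0}` in `X`.  Points of the affine cones
are vectors of `ℂ^(N+1)` with the Euclidean norm.
-/

set_option autoImplicit false

open Topology Filter Metric MvPolynomial

noncomputable section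

namespace Pool.Agent.SR2.T

open Pool.Agent.H17 (PN VanishesAt HolomorphicInto ZariskiClosedIn puncturedDisc)
open Pool.Agent.H17GT (coordFun)
open Pool.Agent.H17LG.Variety (FunField ratio IsLogGeneralType)
open Pool.Agent.H23.Fano (PrimeDivisorOver)

variable {N M k s : ℕ}

/-- `v` is a vector of homogeneous coordinates of the point `x` -/
def Pt (v : Fin (N + 1) → ℂ) (x : PN N) : Prop := ∃ h : v ≠ 0, x = Projectivization.mk ℂ v h

/-- The ideal is homogeneous. -/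
def Homog (P : Ideal (MvPolynomial (Fin (N + 1)) ℂ)) : Prop := ∀ p ∈ P, ∀ n, homogeneousComponent n p ∈ P

/-- The dimension of the variety of `P` is `n`. -/
def HasDim (P : Ideal (MvPolynomial (Fin (N + 1)) ℂ)) [P.IsPrime] (n : ℕ) : Prop := ∃ z : Fin n → FunField P, IsTranscendenceBasis ℂ z

/-- The variety of `P` in `ℙ^N`. -/
def Var (P : Ideal (MvPolynomial (Fin (N + 1)) ℂ)) : Set (PN N) := {x | ∀ Q ∈ P, ∀ n, Q.IsHomogeneous n → VanishesAt Q x}

/-- The open subset of the variety of `P` where one of the forms `G i` is not `0`. -/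
def Loc (P : Ideal (MvPolynomial (Fin (N + 1)) ℂ)) (G : Fin s → MvPolynomial (Fin (N + 1)) ℂ) : Set (PN N) := {x | x ∈ Var P ∧ ∃ i, ¬ VanishesAt (G i) x}

/-- The variety of `P`, of dimension `n`, is smooth: the tangent spaces of its affine cone have dimension at most `n + 1` outside `0`. -/
def Smooth (P : Ideal (MvPolynomial (Fin (N + 1)) ℂ)) (n : ℕ) : Prop :=
  ∀ x : Fin (N + 1) → ℂ, x ≠ 0 → (∀ Q ∈ P, eval x Q = 0) → ∀ v : Fin (n + 2) → Fin (N + 1) → ℂ, LinearIndependent ℂ v →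
    ∃ (i : Fin (n + 2)) (Q : MvPolynomial (Fin (N + 1)) ℂ), Q ∈ P ∧ ∑ l, v i l * eval x (pderiv l Q) ≠ 0

/-- The centre of the prime divisor lies in the set of the common zeros of the forms `G i` in the variety of `P`. -/
def OnBd (P : Ideal (MvPolynomial (Fin (N + 1)) ℂ)) [P.IsPrime] (G : Fin s → MvPolynomial (Fin (N + 1)) ℂ) {k : ℕ}
    (E : PrimeDivisorOver (FunField P) k) : Prop :=
  ∃ j, coordFun P j ≠ 0 ∧ (∀ i, 0 ≤ E.ord (ratio P i j)) ∧ ∀ m, 0 < E.ord (aeval (fun i => ratio P i j) (G m))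

/-- The variety `Loc P G`, of dimension `n`, is of log general type. -/
def LogGT (P : Ideal (MvPolynomial (Fin (N + 1)) ℂ)) [P.IsPrime] (G : Fin s → MvPolynomial (Fin (N + 1)) ℂ) (n : ℕ) : Prop :=
  IsLogGeneralType (OnBd P G (k := n))

/-- `X` is Kobayashi hyperbolic modulo the zeros of the form `Q` of degree `D`: for every holomorphic map `f` from the unit disc to `X` with a lift `F` near
`0`, the Fubini–Study length of `f' 0`, times a power of `|Q (F 0)| / |F 0| ^ D`, is at most `C`. -/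
def KobayashiModulo (X : Set (PN N)) (Q : MvPolynomial (Fin (N + 1)) ℂ) (D : ℕ) : Prop :=
  ∃ (m : ℕ) (C : ℝ), ∀ (f : ℂ → PN N) (F : ℂ → Fin (N + 1) → ℂ), HolomorphicInto f (ball 0 1) → (∀ z ∈ ball (0 : ℂ) 1, f z ∈ X) →
    AnalyticAt ℂ F 0 → (∀ᶠ z in 𝓝 (0 : ℂ), Pt (F z) (f z)) →
      ∃ a : ℂ, (‖eval (F 0) Q‖ / ‖F 0‖ ^ D) ^ m * ‖deriv F 0 - a • F 0‖ ≤ C * ‖F 0‖

/-- The properties of the Green–Griffiths–Lang conjecture for `U = Loc P G`, with the exceptional set `Ξ`. -/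
structure GGL (P : Ideal (MvPolynomial (Fin (N + 1)) ℂ)) [P.IsPrime] (G : Fin s → MvPolynomial (Fin (N + 1)) ℂ) (Ξ : Set (PN N)) : Prop where
  closed : ZariskiClosedIn (Loc P G) Ξ
  proper : Ξ ≠ Loc P G
  /-- `U` is of log general type -/
  logGeneralType : ∀ n, 1 ≤ n → HasDim P n → LogGT P G n
  /-- every holomorphic map from the punctured disc to `U` which does not map to `Ξ` extends to the disc -/
  picard : ∀ f : ℂ → PN N, HolomorphicInto f puncturedDisc → (∀ z ∈ puncturedDisc, f z ∈ Loc P G) → (∃ z ∈ puncturedDisc, f z ∉ Ξ) →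
    ∃ g : ℂ → PN N, HolomorphicInto g (ball 0 1) ∧ ∀ z ∈ puncturedDisc, g z = f z
  /-- every non-constant entire curve in `U` lies in `Ξ` -/
  brody : ∀ f : ℂ → PN N, HolomorphicInto f Set.univ → (∀ z, f z ∈ Loc P G) → (∃ z w, f z ≠ f w) → ∀ z, f z ∈ Ξ
  /-- every closed subvariety of `U` of positive dimension which is not contained in `Ξ` is of log general type -/
  strongly : ∀ (Q : Ideal (MvPolynomial (Fin (N + 1)) ℂ)) [Q.IsPrime], Homog Q → P ≤ Q → ¬ Loc Q G ⊆ Ξ → ∀ n, 1 ≤ n → HasDim Q n → LogGT Q G n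

/-- `p` is regular on the subset `S` of `ℙ^M`: near every point it is given by forms of the same degree. -/
def RegularOn (S : Set (PN M)) (p : PN M → PN N) : Prop :=
  ∀ y ∈ S, ∃ (D : ℕ) (γ : Fin (N + 1) → MvPolynomial (Fin (M + 1)) ℂ), (∀ i, (γ i).IsHomogeneous D) ∧ (∃ i, ¬ VanishesAt (γ i) y) ∧
    ∀ y' ∈ S, (∃ i, ¬ VanishesAt (γ i) y') → Pt (fun i => eval y'.rep (γ i)) (p y')

/-- `p` is a dominant regular map `Loc P' G' → Loc P G`. -/
structure IsDominantMap {s' : ℕ} (P : Ideal (MvPolynomial (Fin (N + 1)) ℂ)) (P' : Ideal (MvPolynomial (Fin (M + 1)) ℂ))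
    (G : Fin s → MvPolynomial (Fin (N + 1)) ℂ) (G' : Fin s' → MvPolynomial (Fin (M + 1)) ℂ) (p : PN M → PN N) : Prop where
  maps : ∀ y ∈ Loc P' G', p y ∈ Loc P G
  regular : RegularOn (Loc P' G') p
  dense : ∀ (Q : MvPolynomial (Fin (N + 1)) ℂ) (n : ℕ), Q.IsHomogeneous n → (∀ y ∈ Loc P' G', VanishesAt Q (p y)) → Q ∈ P

/-- `p` is a surjective regular map `Var P' → Var P`, the inverse image of `Loc P G` is `Loc P' G'`, and there `p` is locally injective and has local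
holomorphic sections: `Loc P' G' → Loc P G` is a finite étale covering. -/
structure IsEtale {s' : ℕ} (P : Ideal (MvPolynomial (Fin (N + 1)) ℂ)) (P' : Ideal (MvPolynomial (Fin (M + 1)) ℂ))
    (G : Fin s → MvPolynomial (Fin (N + 1)) ℂ) (G' : Fin s' → MvPolynomial (Fin (M + 1)) ℂ) (p : PN M → PN N) : Prop where
  maps : ∀ y ∈ Var P', p y ∈ Var P
  surj : ∀ x ∈ Var P, ∃ y ∈ Var P', p y = x
  regular : RegularOn (Var P') p
  inv : ∀ y ∈ Var P', p y ∈ Loc P G ↔ y ∈ Loc P' G'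
  locInj : ∀ y a, Pt y a → a ∈ Loc P' G' → ∀ᶠ q in 𝓝 (y, y), ∀ b ∈ Var P', ∀ b' ∈ Var P', Pt q.1 b → Pt q.2 b' → p b = p b' → b = b'
  locSec : ∀ y a, Pt y a → a ∈ Loc P' G' → ∃ (x : Fin (N + 1) → ℂ) (τ : (Fin (N + 1) → ℂ) → Fin (M + 1) → ℂ), Pt x (p a) ∧ AnalyticAt ℂ τ x ∧ τ x = y ∧
    ∀ᶠ x' in 𝓝 x, ∀ b ∈ Var P, Pt x' b → ∃ c ∈ Var P', Pt (τ x') c ∧ p c = b

/-- `P` is the ideal of a surface in `ℙ^N` and the `G i` are forms. -/
structure Surf (P : Ideal (MvPolynomial (Fin (N + 1)) ℂ)) [P.IsPrime] (G : Fin s → MvPolynomial (Fin (N + 1)) ℂ) : Prop where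
  homog : Homog P
  forms : ∀ i, ∃ n, (G i).IsHomogeneous n
  dim : HasDim P 2

/-- The conclusion: the properties of the Green–Griffiths–Lang conjecture hold for the surface `U = Loc P G` and for all quasi-projective surfaces which
dominate `U`, or virtually dominate `U`. -/
structure Hyperbolic (P : Ideal (MvPolynomial (Fin (N + 1)) ℂ)) [P.IsPrime] (G : Fin s → MvPolynomial (Fin (N + 1)) ℂ) : Prop where
  /-- `U` has the properties of the conjecture, with some exceptional set `Ξ` -/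
  four : ∃ Ξ : Set (PN N), GGL P G Ξ
  /-- every quasi-projective surface `V` with a dominant regular map to `U` has the properties of the conjecture -/
  dominating : ∀ (L t : ℕ) (R : Ideal (MvPolynomial (Fin (L + 1)) ℂ)) [R.IsPrime] (F : Fin t → MvPolynomial (Fin (L + 1)) ℂ) (p : PN L → PN N),
    Surf R F → IsDominantMap P R G F p → ∃ Ξ : Set (PN L), GGL R F Ξ
  /-- every quasi-projective surface `V` of log general type with a finite étale covering `V'` which has a dominant regular map to `U` has the properties of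
  the conjecture -/
  virtual : ∀ (L L' t t' : ℕ) (R : Ideal (MvPolynomial (Fin (L + 1)) ℂ)) [R.IsPrime] (R' : Ideal (MvPolynomial (Fin (L' + 1)) ℂ)) [R'.IsPrime]
    (F : Fin t → MvPolynomial (Fin (L + 1)) ℂ) (F' : Fin t' → MvPolynomial (Fin (L' + 1)) ℂ) (q : PN L' → PN L) (p : PN L' → PN N),
    Surf R F → Surf R' F' → IsDominantMap P R' G F' p → IsEtale R R' F F' q → LogGT R F 2 → ∃ Ξ : Set (PN L), GGL R F Ξ
  /-- the Kobayashi metric of `U` is bounded below by a power of `|Q|`, for a form `Q` which is not `0` on `U` -/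
  kobayashi : ∃ (Q : MvPolynomial (Fin (N + 1)) ℂ) (D : ℕ), Q.IsHomogeneous D ∧ (∃ x ∈ Loc P G, ¬ VanishesAt Q x) ∧ KobayashiModulo (Loc P G) Q D

/-- `ℂ^(N+1)` with the Euclidean norm -/
abbrev V (N : ℕ) : Type := EuclideanSpace ℂ (Fin (N + 1))

/-- the affine cone over the variety of `P`, without `0` -/
def Cone (P : Ideal (MvPolynomial (Fin (N + 1)) ℂ)) : Set (V N) := {x | x.ofLp ≠ 0 ∧ ∀ Q ∈ P, eval x.ofLp Q = 0}

/-- the affine cone over the complement of the hypersurfaces `{H i = 0}` in the variety of `P` -/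
def Cone' (P : Ideal (MvPolynomial (Fin (N + 1)) ℂ)) (H : Fin k → MvPolynomial (Fin (N + 1)) ℂ) : Set (V N) :=
  {x | x ∈ Cone P ∧ ∀ i, eval x.ofLp (H i) ≠ 0}

/-- `v` is a tangent vector of `X` at `x` -/
def Tan (X : Set (V N)) (x v : V N) : Prop :=
  ∃ F : ℂ → V N, (AnalyticAt ℂ F 0 ∧ ∀ᶠ z in 𝓝 (0 : ℂ), F z ∈ X) ∧ F 0 = x ∧ deriv F 0 = v

/-- A symmetric differential of degree `m` on the manifold with the affine cone `X`: a function on the tangent bundle of the cone, homogeneous of degree `m`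
on the tangent spaces, which is holomorphic on the tangent bundle of `ℂ^k` for every holomorphic map from an open subset of `ℂ^k` to the manifold. -/
structure SymDiff (X : Set (V N)) (m : ℕ) where
  /-- the differential -/
  toFun : V N → V N → ℂ
  add_smul : ∀ x v, Tan X x v → ∀ a : ℂ, toFun x (v + a • x) = toFun x v
  smul : ∀ x v, Tan X x v → ∀ a : ℂ, toFun x (a • v) = a ^ m * toFun x v
  scale : ∀ x v, Tan X x v → ∀ c : ℂ, c ≠ 0 → toFun (c • x) (c • v) = toFun x v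
  analytic : ∀ (k : ℕ) (φ : (Fin k → ℂ) → V N) (p w : Fin k → ℂ), AnalyticAt ℂ φ p → (∀ᶠ y in 𝓝 p, φ y ∈ X) →
    AnalyticAt ℂ (fun y : (Fin k → ℂ) × (Fin k → ℂ) => toFun (φ y.1) (fderiv ℂ φ y.1 y.2)) (p, w)

/-- The entire curve `f` is tangent to the symmetric differential `θ`. -/
def TangentTo {X : Set (V N)} {m : ℕ} (θ : SymDiff X m) (f : ℂ → PN N) : Prop :=
  ∃ F : ℂ → V N, (Differentiable ℂ F ∧ ∀ z, Pt (F z).ofLp (f z)) ∧ ∀ z, θ.toFun (F z) (deriv F z) = 0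

/-- `T_f (r) = O (r²)` -/
def OrderTwo (f : ℂ → PN N) : Prop :=
  ∃ (F : ℂ → Fin (N + 1) → ℂ) (A : ℝ), Differentiable ℂ F ∧ (∀ z, Pt (F z) (f z)) ∧
    ∀ r : ℝ, 0 < r → Real.circleAverage (fun z => Real.log ‖F z‖) 0 r ≤ A * (1 + r ^ 2)

/-- the derivative of `log |u|²` in the direction `w` -/
def dlog {n : ℕ} (u w : Fin n → ℂ) : ℂ := (∑ i, star (u i) * w i) / ∑ i, ‖u i‖ ^ 2

/-- the Fubini–Study length of the tangent vector `v` at `x` -/
def fs {n : ℕ} (x v : Fin n → ℂ) : ℝ := Real.sqrt ((∑ i, ‖x i‖ ^ 2) * (∑ i, ‖v i‖ ^ 2) - ‖∑ i, star (x i) * v i‖ ^ 2) / ∑ i, ‖x i‖ ^ 2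

/-- the derivative of `log (|E| / |x| ^ c)²` at `x` in the direction `v`, for a vector `E` of forms of degree `c` -/
def ell (E : Fin (M + 1) → MvPolynomial (Fin (N + 1)) ℂ) (c : ℕ) (x v : Fin (N + 1) → ℂ) : ℂ :=
  dlog (fun l => eval x (E l)) (fun l => ∑ i, v i * eval x (pderiv i (E l))) - c * dlog x v

/-- `(σ, τ)` is a system of local coordinates of the surface with the affine cone `X`: `σ` is a lift of the parametrisation, `τ` its inverse. -/
structure IsChart (X : Set (V N)) (σ : ℂ × ℂ → V N) (τ : V N → ℂ × ℂ) : Prop where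
  σ_an : AnalyticAt ℂ σ 0
  σ_mem : ∀ᶠ p in 𝓝 (0 : ℂ × ℂ), σ p ∈ X
  ne : σ 0 ≠ 0
  τ_an : AnalyticAt ℂ τ (σ 0)
  left : ∀ᶠ p in 𝓝 (0 : ℂ × ℂ), τ (σ p) = p
  right : ∀ᶠ y in 𝓝 (σ 0), y ∈ X → ∃ c : ℂ, c ≠ 0 ∧ y = c • σ (τ y)
  inv : ∀ᶠ p in 𝓝 (σ 0, (1 : ℂ)), τ (p.2 • p.1) = τ p.1

/-- the constant `1` and the two coordinates of `ℂ²` -/
def co : Option Bool → ℂ × ℂ → ℂ
  | none, _ => 1
  | some false, p => p.1
  | some true, p => p.2

/-- The curve `{H = 0}` in the surface of `P` has simple normal crossings, with the components `{E i l = 0 for all l}`, and `H` has a zero of order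
`b i` along the component `i`: near every point there are coordinates such that `E i` is `1` or one of the two coordinates, times a vector valued function
without zeros, and `H` is the product of the corresponding powers, times a function without zeros; different components have different coordinates. -/
structure Snc (P : Ideal (MvPolynomial (Fin (N + 1)) ℂ)) (H : MvPolynomial (Fin (N + 1)) ℂ)
    (E : Fin k → Fin (M + 1) → MvPolynomial (Fin (N + 1)) ℂ) (b : Fin k → ℕ) : Prop where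
  pos : ∀ i, 1 ≤ b i
  chart : ∀ x ∈ Cone P, ∃ (σ : ℂ × ℂ → V N) (τ : V N → ℂ × ℂ) (s : Fin k → Option Bool) (e : Fin k → Fin (M + 1) → ℂ × ℂ → ℂ) (u : ℂ × ℂ → ℂ),
    IsChart (Cone P) σ τ ∧ σ 0 = x ∧ (∀ i i', s i ≠ none → s i = s i' → i = i') ∧
    (∀ i, (∃ l, e i l 0 ≠ 0) ∧ ∀ l, AnalyticAt ℂ (e i l) 0 ∧ ∀ᶠ y in 𝓝 (0 : ℂ × ℂ), eval (σ y).ofLp (E i l) = co (s i) y * e i l y) ∧
    AnalyticAt ℂ u 0 ∧ u 0 ≠ 0 ∧ ∀ᶠ y in 𝓝 (0 : ℂ × ℂ), eval (σ y).ofLp H = u y * ∏ i, co (s i) y ^ b i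

/-- the affine cone over `U` -/
def CU (P : Ideal (MvPolynomial (Fin (N + 1)) ℂ)) (H : MvPolynomial (Fin (N + 1)) ℂ) : Set (V N) := Cone' P fun _ : Fin 1 => H

/-- The symmetric differential on `U` has at most logarithmic poles. -/
def HasLogPoles {P : Ideal (MvPolynomial (Fin (N + 1)) ℂ)} {H : MvPolynomial (Fin (N + 1)) ℂ}
    (E : Fin k → Fin (M + 1) → MvPolynomial (Fin (N + 1)) ℂ) (c : Fin k → ℕ) {m : ℕ} (θ : SymDiff (CU P H) m) : Prop :=
  ∃ C : ℝ, 0 ≤ C ∧ ∀ x ∈ CU P H, ∀ v, Tan (CU P H) x v → ‖θ.toFun x v‖ ≤ C * (fs x.ofLp v.ofLp + ∑ i, ‖ell (E i) (c i) x.ofLp v.ofLp‖) ^ m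

/-- The symmetric differential on `U` is given by a polynomial in the coordinates and their differentials, divided by a power of `H`. -/
def IsAlg {P : Ideal (MvPolynomial (Fin (N + 1)) ℂ)} {H : MvPolynomial (Fin (N + 1)) ℂ} {m : ℕ} (θ : SymDiff (CU P H) m) : Prop :=
  ∃ (W : MvPolynomial (Fin (N + 1) ⊕ Fin (N + 1)) ℂ) (r : ℕ), ∀ x ∈ CU P H, ∀ v, Tan (CU P H) x v →
    θ.toFun x v * eval x.ofLp H ^ r = eval (Sum.elim x.ofLp v.ofLp) W

/-- Sections `Ω a` of `m K_X + (m - 1) D - j H`, `D = {H = 0}`, such that the zeros of `Ω a` in `U` lie in `{Q a = 0}` and the `Q a` have no common zeros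
in `U`. -/
structure LogAmple (P : Ideal (MvPolynomial (Fin (N + 1)) ℂ)) (H : MvPolynomial (Fin (N + 1)) ℂ) (m j : ℕ) {r : ℕ}
    (Ω : Fin r → V N → V N → V N → ℂ) (Q : Fin r → MvPolynomial (Fin (N + 1)) ℂ) : Prop where
  one_m : 1 ≤ m
  one_j : 1 ≤ j
  add_smul : ∀ a, ∀ x ∈ CU P H, ∀ v w, Tan (CU P H) x v → Tan (CU P H) x w → ∀ a' b : ℂ, Ω a x (v + a' • x) (w + b • x) = Ω a x v w
  det : ∀ a, ∀ x ∈ CU P H, ∀ v w, Tan (CU P H) x v → Tan (CU P H) x w → ∀ a' b c d : ℂ,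
    Ω a x (a' • v + b • w) (c • v + d • w) = (a' * d - b * c) ^ m * Ω a x v w
  scale : ∀ a, ∀ x ∈ CU P H, ∀ v w, Tan (CU P H) x v → Tan (CU P H) x w → ∀ c : ℂ, c ≠ 0 → c ^ j * Ω a (c • x) (c • v) (c • w) = Ω a x v w
  analytic : ∀ a, ∀ (φ : ℂ × ℂ → V N) (p : ℂ × ℂ), AnalyticAt ℂ φ p → (∀ᶠ y in 𝓝 p, φ y ∈ CU P H) →
    AnalyticAt ℂ (fun y => Ω a (φ y) (fderiv ℂ φ y (1, 0)) (fderiv ℂ φ y (0, 1))) p
  /-- the pole along `D` has at most the order `m - 1` -/
  pole : ∀ a, ∀ (φ : ℂ × ℂ → V N) (p : ℂ × ℂ), AnalyticAt ℂ φ p → (∀ᶠ y in 𝓝 p, φ y ∈ Cone P) → ∀ G : List (ℂ × ℂ → ℂ), G.length = m - 1 →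
    (∀ g ∈ G, AnalyticAt ℂ g p ∧ ∀ᶠ y in 𝓝 p, φ y ∉ CU P H → g y = 0) → ∃ b : ℂ × ℂ → ℂ, AnalyticAt ℂ b p ∧
      ∀ᶠ y in 𝓝 p, φ y ∈ CU P H → b y = (G.map fun g => g y).prod * Ω a (φ y) (fderiv ℂ φ y (1, 0)) (fderiv ℂ φ y (0, 1))
  hom : ∃ D, ∀ a, (Q a).IsHomogeneous D
  noZeros : ∀ a, ∀ x ∈ CU P H, eval x.ofLp (Q a) ≠ 0 → ∀ v w, Tan (CU P H) x v → Tan (CU P H) x w → LinearIndependent ℂ ![x, v, w] → Ω a x v w ≠ 0
  cover : ∀ x ∈ CU P H, ∃ a, eval x.ofLp (Q a) ≠ 0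

/-- Every entire curve in a component of the boundary which does not meet the others is constant. -/
def NoBdyCurve (P : Ideal (MvPolynomial (Fin (N + 1)) ℂ)) (E : Fin k → Fin (M + 1) → MvPolynomial (Fin (N + 1)) ℂ) : Prop :=
  ∀ (i : Fin k) (f : ℂ → PN N), HolomorphicInto f Set.univ → (∀ z, f z ∈ Var P ∧ ∀ l, VanishesAt (E i l) (f z)) →
    (∀ i', i' ≠ i → ∀ z, ∃ l, ¬ VanishesAt (E i' l) (f z)) → ∀ z w, f z = f w

/-- `U` contains no affine line: a polynomial map from `ℂ` to `{H = 1}` is constant. -/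
def NoLine (P : Ideal (MvPolynomial (Fin (N + 1)) ℂ)) (H : MvPolynomial (Fin (N + 1)) ℂ) : Prop :=
  ∀ F : Fin (N + 1) → Polynomial ℂ, (∀ z : ℂ, (∀ Q ∈ P, eval (fun l => (F l).eval z) Q = 0) ∧ eval (fun l => (F l).eval z) H = 1) →
    ∀ l, (F l).natDegree = 0

/-- The entire curves in `U` which are tangent to all symmetric differentials `θ j` are few: those which are not constant and have
`T_f (r) = O (r ^ 2)` lie in one curve `{R = 0}`, or two of the `θ j` have no common null direction at the points of a dense subset of `U`. -/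
inductive FewTangent (P : Ideal (MvPolynomial (Fin (N + 1)) ℂ)) (H : MvPolynomial (Fin (N + 1)) ℂ) {s : ℕ} {m : Fin s → ℕ}
    (θ : ∀ j, SymDiff (CU P H) (m j)) : Prop
  | curve (R : MvPolynomial (Fin (N + 1)) ℂ) (d : ℕ) (hR : R.IsHomogeneous d) (hRP : R ∉ P)
      (h : ∀ f : ℂ → PN N, HolomorphicInto f Set.univ → OrderTwo f → (∀ z, f z ∈ Var P ∧ ¬ VanishesAt H (f z)) → (∃ z w, f z ≠ f w) →
        (∀ j, TangentTo (θ j) f) → ∀ z, VanishesAt R (f z))
  | coprime (i j : Fin s) (h : CU P H ⊆ closure {x | x ∈ CU P H ∧ ∀ v, Tan (CU P H) x v → (∀ a : ℂ, v ≠ a • x) → (θ i).toFun x v ≠ 0 ∨ (θ j).toFun x v ≠ 0})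

end Pool.Agent.SR2.T
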