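import Pool.Agent.SR2.T.CvA
import Pool.Agent.SR2.T.CvG
import Pool.Agent.SR2.Asm

/-!
# SR2 T Fin: the main theorem in the compact definitions
-/

set_option autoImplicit false

open MvPolynomial

noncomputable section

namespace Pool.Agent.SR2.T

variable {N k M h : ℕ}

/-- **Main theorem** (compare `Pool.Agent.SR2.main_log`). -/
theorem main_log (P : Ideal (MvPolynomial (Fin (N + 1)) ℂ)) [P.IsPrime] (hP : Homog P) (hdim : HasDim P 2) (hsm : Smooth P 2)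
    (H : MvPolynomial (Fin (N + 1)) ℂ) (hH : H.IsHomogeneous h) (h1 : 1 ≤ h) (hHP : H ∉ P)
    (E : Fin k → Fin (M + 1) → MvPolynomial (Fin (N + 1)) ℂ) (c b : Fin k → ℕ) (hE : ∀ i l, (E i l).IsHomogeneous (c i))
    (hs : Snc P H E b) (hB : NoBdyCurve P E) (hgt : LogGT P (fun _ : Fin 1 => H) 2) (hL : NoLine P H)
    {mΩ jΩ r : ℕ} (Ω : Fin r → V N → V N → V N → ℂ) (Q : Fin r → MvPolynomial (Fin (N + 1)) ℂ) (hΩ : LogAmple P H mΩ jΩ Ω Q)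
    {s : ℕ} (hs1 : 1 ≤ s) (m : Fin s → ℕ) (hm : ∀ j, 1 ≤ m j) (θ : ∀ j, SymDiff (CU P H) (m j)) (hθ : ∀ j, HasLogPoles E c (θ j))
    (hθ' : ∀ j, IsAlg (θ j)) (hf : FewTangent P H θ) : Hyperbolic P (fun _ : Fin 1 => H) :=
  hyperbolic_of (Pool.Agent.SR2.main_log P hP hdim (isSmooth_of hsm) H hH h1 hHP E c b hE (snc_of hs) (noBdyCurve_of hB) (isOfLGT_of hgt)
    (noLine_of hL) Ω Q (logAmple_of hΩ) hs1 m hm (fun j => toS (θ j)) (fun j => hasLogPoles_of (hθ j)) (fun j => isAlg_of (hθ' j)) (fewTangent_of hf))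

/-- **Main theorem** (the form of `FinStub`). -/
theorem main_log' {N : ℕ} (P : Ideal (MvPolynomial (Fin (N + 1)) ℂ)) [P.IsPrime] (hP : Homog P) (hdim : HasDim P 2) (hsmooth : Smooth P 2)
    {h : ℕ} (H : MvPolynomial (Fin (N + 1)) ℂ) (hH : H.IsHomogeneous h) (h1 : 1 ≤ h) (hHP : H ∉ P) {k M : ℕ}
    (E : Fin k → Fin (M + 1) → MvPolynomial (Fin (N + 1)) ℂ) (c b : Fin k → ℕ) (hE : ∀ i l, (E i l).IsHomogeneous (c i)) (hsnc : Snc P H E b)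
    (hbdy : NoBdyCurve P E) (hgt : LogGT P (fun _ : Fin 1 => H) 2) (hline : NoLine P H) {mΩ jΩ r : ℕ} (Ω : Fin r → V N → V N → V N → ℂ)
    (Q : Fin r → MvPolynomial (Fin (N + 1)) ℂ) (hample : LogAmple P H mΩ jΩ Ω Q)
    {s : ℕ} (hs : 1 ≤ s) (m : Fin s → ℕ) (hm : ∀ j, 1 ≤ m j) (θ : ∀ j, SymDiff (CU P H) (m j)) (hlog : ∀ j, HasLogPoles E c (θ j))
    (halg : ∀ j, IsAlg (θ j)) (hfew : FewTangent P H θ) : Hyperbolic P (fun _ : Fin 1 => H) :=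
  main_log P hP hdim hsmooth H hH h1 hHP E c b hE hsnc hbdy hgt hline Ω Q hample hs m hm θ hlog halg hfew

end Pool.Agent.SR2.T
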