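import Pool.Agent.SR2.T.CvA
import Pool.Agent.SR2.T.CvG
import Pool.Agent.SR2.AsmDraft

/-!
# SR2 T FinDraft: the main theorem in the compact definitions
-/

set_option autoImplicit false

open MvPolynomial

noncomputable section

namespace Pool.Agent.SR2.T

variable {N k M h : ℕ}

theorem main_few (P : Ideal (MvPolynomial (Fin (N + 1)) ℂ)) [P.IsPrime] (H : MvPolynomial (Fin (N + 1)) ℂ) (hX : Surf P (fun _ : Fin 1 => H))
    (hsm : Smooth P 2) (hH : H.IsHomogeneous h) (h1 : 1 ≤ h) (hHP : H ∉ P) (hgt : LogGT P (fun _ : Fin 1 => H) 2)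
    (E : Fin k → Fin (M + 1) → MvPolynomial (Fin (N + 1)) ℂ) (c b : Fin k → ℕ) (hE : ∀ i l, (E i l).IsHomogeneous (c i)) (hc : ∀ i, h + 1 ≤ c i)
    (hs : Snc P H E b) {s : ℕ} (hs1 : 1 ≤ s) (m : Fin s → ℕ) (hm : ∀ j, 1 ≤ m j) (θ : ∀ j, SymDiff (CU P H) (m j)) (hθ : ∀ j, HasLogPoles E c (θ j))
    (hθ' : ∀ j, IsAlg (θ j)) {mΩ jΩ r : ℕ} (Ω : Fin r → V N → V N → V N → ℂ) (Q : Fin r → MvPolynomial (Fin (N + 1)) ℂ)
    (hΩ : LogAmple P H mΩ jΩ Ω Q) (hB : NoBdyCurve P E) (hL : NoLine P H) (hf : FewTangent P H θ) :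
    Hyperbolic P (fun _ : Fin 1 => H) :=
  hyperbolic_of (Pool.Agent.SR2.main_few P hX.homog hX.dim (isSmooth_of hsm) H hH h1 hHP (isOfLGT_of hgt) E c b hE hc (snc_of hs) hs1 m hm
    (fun j => toS (θ j)) (fun j => hasLogPoles_of (hθ j)) (fun j => isAlg_of (hθ' j)) Ω Q (logAmple_of hΩ) (noBdyCurve_of hB) (noLine_of hL)
    (fewTangent_of hf))

end Pool.Agent.SR2.T
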